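import Pool.Agent.L0h99.MN.Stm2

/-! # Project MD, module IDU: minors of induced subgraphs -/

set_option autoImplicit false

namespace Pool.Agent.L0h34.MD.IDU

open Finset Pool.Agent.L0h99.MN Pool.Agent.L0h99.MD

theorem cn_image {V V' : Type} [Fintype V] [DecidableEq V] [Fintype V'] [DecidableEq V']
    (f : V' → V) (G : SimpleGraph V) (B : Finset V') (h : Cn (G.comap f) B) :
    Cn G (B.image f) := by
  classical
  refine ⟨h.1.image f, ?_⟩
  intro X hX hne hneq
  have h1 : (B.filter fun y => f y ∈ X) ⊆ B := Finset.filter_subset _ _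
  have h2 : (B.filter fun y => f y ∈ X).Nonempty := by
    obtain ⟨x, hx⟩ := hne
    obtain ⟨y, hy, hyx⟩ := Finset.mem_image.1 (hX hx)
    exact ⟨y, Finset.mem_filter.2 ⟨hy, by rw [hyx]; exact hx⟩⟩
  have h3 : (B.filter fun y => f y ∈ X) ≠ B := by
    intro h4
    apply hneq
    apply Finset.Subset.antisymm hX
    intro x hx
    obtain ⟨y, hy, hyx⟩ := Finset.mem_image.1 hx
    have h5 : y ∈ B.filter fun y => f y ∈ X := by rw [h4]; exact hy
    rw [← hyx]
    exact (Finset.mem_filter.1 h5).2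
  obtain ⟨a, ha, b, hb, hab⟩ := h.2 _ h1 h2 h3
  rw [Finset.mem_sdiff] at hb
  refine ⟨f a, (Finset.mem_filter.1 ha).2, f b, ?_, hab⟩
  rw [Finset.mem_sdiff]
  refine ⟨Finset.mem_image_of_mem f hb.1, fun h6 => hb.2 ?_⟩
  exact Finset.mem_filter.2 ⟨hb.1, h6⟩

theorem IDU : St_IDU := by
  intro V V' _ _ _ _ f G hf hK
  obtain ⟨B, h1, h2, h3⟩ := hK
  refine ⟨fun i => (B i).image f, fun i => cn_image f G (B i) (h1 i), fun i j hij => ?_,
    fun i j hij => ?_⟩
  · exact (Finset.disjoint_image hf).2 (h2 i j hij)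
  · obtain ⟨x, hx, y, hy, hxy⟩ := h3 i j hij
    exact ⟨f x, Finset.mem_image_of_mem f hx, f y, Finset.mem_image_of_mem f hy, hxy⟩

end Pool.Agent.L0h34.MD.IDU
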